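import Pool.Agent.Lib.MP_5349a4_pr.M.H39.Badn1

/-!
# BADN: almost surely there are no bad edges (module of project MSF, section 11.3 of Paper.md)
-/

set_option autoImplicit false
open MeasureTheory Set Filter Topology
open scoped ENNReal NNReal

namespace Pool.Agent.Lib.MP_5349a4_pr.H39

variable {d : ℕ}

/-- inner index box -/
noncomputable def IK (d K N : ℕ) : Finset (Fin d → ℤ) :=
  Fintype.piFinset fun _ : Fin d => Finset.Ico (K : ℤ) (K + N)

/-- outer index box -/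
noncomputable def IL (d K N : ℕ) : Finset (Fin d → ℤ) :=
  Fintype.piFinset fun _ : Fin d => Finset.Ico (0 : ℤ) (N + 2 * K)

theorem card_IK (d K N : ℕ) : (IK d K N).card = N ^ d := by
  unfold IK
  rw [Fintype.card_piFinset]
  simp

theorem card_IL (d K N : ℕ) : (IL d K N).card = (N + 2 * K) ^ d := by
  unfold IL
  rw [Fintype.card_piFinset]
  simp only [Int.card_Ico, sub_zero, Finset.prod_const, Finset.card_univ, Fintype.card_fin]
  congr 1

theorem IK_sub (d K N : ℕ) : IK d K N ⊆ IL d K N := by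
  intro z hz
  unfold IK at hz
  unfold IL
  rw [Fintype.mem_piFinset] at *
  intro i
  have := hz i
  rw [Finset.mem_Ico] at *
  omega

theorem box_geom (K N : ℕ) (x y : Eu d) (hx : flo x ∈ IK d K N) (hxy : dist x y ≤ K) :
    flo y ∈ IL d K N := by
  unfold IK at hx
  unfold IL
  rw [Fintype.mem_piFinset] at *
  intro i
  have h1 := hx i
  rw [Finset.mem_Ico] at *
  unfold flo at *
  have h2 : |x i - y i| ≤ K := by
    have h3 : ‖(x - y) i‖ ≤ ‖x - y‖ := PiLp.norm_apply_le (x - y) i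
    rw [Real.norm_eq_abs] at h3
    rw [dist_eq_norm] at hxy
    exact h3.trans hxy
  rw [abs_le] at h2
  have h4 : (K : ℝ) ≤ x i := by
    have := Int.le_floor.1 h1.1
    exact_mod_cast this
  have h5 : x i < (K : ℝ) + N := by
    have := Int.floor_lt.1 h1.2
    push_cast at this
    exact this
  constructor
  · rw [Int.le_floor]
    push_cast
    linarith
  · rw [Int.floor_lt]
    push_cast
    linarith

/-- The deterministic counting inequality. -/
theorem count_ineq (h1 : CntEStatement) (C : ℕ) (S : Set (Eu d)) (hlf : LF S) (hinf : S.Infinite)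
    (hgen : Gen S) (hC : ∀ x, {y | edge S x y}.encard ≤ C) (J K N : ℕ) (hJ : J ≤ K) :
    ∑ z ∈ IK d K N, bcount J (cell z) S ≤
      2 * (∑ z ∈ IL d K N, lcount K (cell z) S +
        ∑ z ∈ IL d K N \ IK d K N, C * pc (S ∩ cell z)) := by
  classical
  have hJ' : (J : ℝ) ≤ K := by exact_mod_cast hJ
  set A : Set (Eu d) := S ∩ {x | flo x ∈ IL d K N} with hA
  have hAfin : A.Finite := by
    refine hlf _ ((bounded_box (d := d) 0 (N + 2 * K)).subset ?_)
    intro x hx i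
    have hx' : flo x ∈ IL d K N := hx
    unfold IL at hx'
    rw [Fintype.mem_piFinset] at hx'
    have := hx' i
    rw [Finset.mem_Ico] at this
    exact this
  have e1 : ∑ z ∈ IK d K N, bcount J (cell z) S ≤
      pc {q : Eu d × Eu d | q.1 ∈ A ∧ q.2 ∈ A ∧ bad S q.1 q.2} := by
    simp_rw [bcount_eq]
    refine sum_cells _ _ _ ?_ ?_
    · rintro z hz ⟨x, y⟩ ⟨hx, hy, hb, hd⟩
      have hz' : flo x = z := hx.2
      rw [← hz'] at hz
      exact ⟨⟨hx.1, IK_sub d K N hz⟩, ⟨hy, box_geom K N x y hz (hd.trans hJ')⟩, hb⟩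
    · rintro z ⟨x, y⟩ ⟨hx, -⟩
      exact hx.2
  have e2 : pc {q : Eu d × Eu d | q.1 ∈ A ∧ q.2 ∈ A ∧ bad S q.1 q.2} ≤
      2 * pc {q : Eu d × Eu d | q.1 ∈ A ∧ q.2 ∈ S \ A ∧ edge S q.1 q.2} := by
    have h := h1 d S A hlf hinf hgen inter_subset_left hAfin
    rw [pc_encard, pc_encard]
    have h' := ENat.toENNReal_mono h
    simpa using h'
  have e3 : pc {q : Eu d × Eu d | q.1 ∈ A ∧ q.2 ∈ S \ A ∧ edge S q.1 q.2} ≤
      ∑ z ∈ IL d K N, lcount K (cell z) S +
        ∑ z ∈ IL d K N \ IK d K N, pc {q : Eu d × Eu d | q.1 ∈ S ∩ cell z ∧ edge S q.1 q.2} := by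
    simp_rw [lcount_eq]
    refine cover_cells _ _ _ _ _ ?_
    rintro ⟨x, y⟩ ⟨hx, hy, he⟩
    by_cases hd : (K : ℝ) < dist x y
    · left
      exact ⟨flo x, hx.2, ⟨hx.1, rfl⟩, hy.1, he, hd⟩
    · right
      refine ⟨flo x, ?_, ⟨hx.1, rfl⟩, he⟩
      rw [Finset.mem_sdiff]
      refine ⟨hx.2, fun hk => hy.2 ⟨hy.1, box_geom K N x y hk (not_lt.1 hd)⟩⟩
  refine e1.trans (e2.trans ?_)
  gcongr
  refine e3.trans ?_
  gcongr with z hz
  refine deg_bound C S (cell z) hC _ ?_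
  rintro q ⟨hq1, hq2⟩
  exact ⟨hq1, hq2⟩

theorem lcount_le (C : ℕ) (S : Set (Eu d)) (hC : ∀ x, {y | edge S x y}.encard ≤ C) (K : ℝ)
    (V : Set (Eu d)) : lcount K V S ≤ C * pc (S ∩ V) := by
  rw [lcount_eq]
  exact deg_bound C S V hC _ fun q hq => ⟨hq.1, hq.2.2.1⟩

theorem bcount_le (C : ℕ) (S : Set (Eu d)) (hC : ∀ x, {y | edge S x y}.encard ≤ C) (K : ℝ)
    (V : Set (Eu d)) : bcount K V S ≤ C * pc (S ∩ V) := by
  rw [bcount_eq]
  exact deg_bound C S V hC _ fun q hq => ⟨hq.1, hq.2.2.1.1⟩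

/-- There are finitely many edges starting in a bounded set, so long ones do not exist. -/
theorem lcount_tendsto (C : ℕ) (S : Set (Eu d)) (hlf : LF S)
    (hC : ∀ x, {y | edge S x y}.encard ≤ C) (V : Set (Eu d)) (hV : Bornology.IsBounded V) :
    Tendsto (fun K : ℕ => lcount K V S) atTop (𝓝 0) := by
  have hfin : {q : Eu d × Eu d | q.1 ∈ S ∩ V ∧ edge S q.1 q.2}.Finite := by
    have h1 : (⋃ x ∈ S ∩ V, (fun y => (x, y)) '' {y | edge S x y}).Finite := by
      refine Set.Finite.biUnion (hlf V hV) fun x _ => ?_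
      refine Set.Finite.image _ ?_
      exact Set.encard_lt_top_iff.1 (lt_of_le_of_lt (hC x) (ENat.natCast_lt_top C))
    refine h1.subset ?_
    rintro ⟨x, y⟩ ⟨hx, hxy⟩
    exact mem_biUnion hx ⟨y, hxy, rfl⟩
  obtain ⟨M, hM⟩ := (hfin.image fun q : Eu d × Eu d => dist q.1 q.2).bddAbove
  obtain ⟨K0, hK0⟩ := exists_nat_ge M
  refine tendsto_const_nhds.congr' ?_
  filter_upwards [eventually_ge_atTop K0] with K hK
  symm
  rw [lcount_eq]
  unfold pc
  rw [ENNReal.tsum_eq_zero]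
  intro q
  refine ind_not ?_
  rintro ⟨hq1, hq2, hq3, hq4⟩
  have h5 : dist q.1 q.2 ≤ M := hM ⟨q, ⟨hq1, hq3⟩, rfl⟩
  have h6 : (K0 : ℝ) ≤ K := by exact_mod_cast hK
  linarith

section Proc
variable {Ω : Type} [MeasurableSpace Ω]

theorem shift_int (Pr : Measure Ω) (S : Ω → Set (Eu d)) (hS : IsProc d Pr S)
    (Ψ : (Fin d → ℤ) → Set (Eu d) → ℝ≥0∞) (hm : ∀ z, Measurable fun ω => Ψ z (S ω))
    (hsh : ∀ z S, Ψ z ((fun u => u + ivec z) '' S) = Ψ 0 S) (z : Fin d → ℤ) :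
    ∫⁻ ω, Ψ z (S ω) ∂Pr = ∫⁻ ω, Ψ 0 (S ω) ∂Pr := by
  obtain ⟨θ, hθ, hS'⟩ := hS.shift z
  rw [← hθ.lintegral_comp (hm z)]
  refine lintegral_congr fun ω => ?_
  rw [hS', hsh]

theorem bounded_cell (z : Fin d → ℤ) : Bornology.IsBounded (cell z : Set (Eu d)) := by
  classical
  by_cases hd : ∃ a b : ℤ, ∀ i, a ≤ z i ∧ z i < b
  · obtain ⟨a, b, h⟩ := hd
    refine (bounded_box (d := d) a b).subset fun x hx i => ?_
    have : flo x = z := hx
    have h' : ⌊x i⌋ = z i := congrFun this i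
    rw [h']
    exact h i
  · exfalso
    apply hd
    refine ⟨-∑ i, |z i|, ∑ i, |z i| + 1, fun i => ?_⟩
    have h1 : |z i| ≤ ∑ i, |z i| :=
      Finset.single_le_sum (f := fun i => |z i|) (fun _ _ => abs_nonneg _) (Finset.mem_univ i)
    have h2 := abs_le.1 h1
    omega

theorem dom_cell (z : Fin d → ℤ) : Dom (cell z : Set (Eu d)) :=
  ⟨measurable_cell z, bounded_cell z⟩

theorem meas_ncount (h4 : MSumStatement) (Pr : Measure Ω) (S : Ω → Set (Eu d))
    (hS : IsProc d Pr S) (z : Fin d → ℤ) : Measurable fun ω => pc (S ω ∩ cell z) := by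
  have hcm : CM (fun P : Set (Eu d) => ∑' _ : P, (1 : ℝ≥0∞)) := by
    have h := h4.1 Unit (Eu d) (fun _ _ _ => 1) measurable_const
    unfold CM
    exact h.comp (measurable_const.prodMk measurable_id : Measurable fun ω : Cfg (Eu d) => ((), ω))
  have h := (hS.law _ (dom_cell z) _ hcm).1
  have e : (fun ω => pc (S ω ∩ cell z)) =
      fun ω => ∑' _ : (S ω ∩ cell z : Set (Eu d)), (1 : ℝ≥0∞) := by
    funext ω
    rw [pc_encard, ENNReal.tsum_set_one]
  rw [e]
  exact h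

theorem int_ncount (h3 : MeckeStatement) (h4 : MSumStatement) (h5 : ProbStatement) (hd : 1 ≤ d)
    (Pr : Measure Ω) (S : Ω → Set (Eu d)) (hS : IsProc d Pr S) (z : Fin d → ℤ) :
    ∫⁻ ω, pc (S ω ∩ cell z) ∂Pr < ∞ := by
  have hcm : CM (fun P : Set (Eu d) => ∑' _ : P, (1 : ℝ≥0∞)) := by
    have h := h4.1 Unit (Eu d) (fun _ _ _ => 1) measurable_const
    unfold CM
    exact h.comp (measurable_const.prodMk measurable_id : Measurable fun ω : Cfg (Eu d) => ((), ω))
  have h := (hS.law _ (dom_cell z) _ hcm).2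
  have e : ∫⁻ ω, pc (S ω ∩ cell z) ∂Pr = ∫⁻ ω, ∑' _ : (S ω ∩ cell z : Set (Eu d)), (1 : ℝ≥0∞) ∂Pr := by
    refine lintegral_congr fun ω => ?_
    rw [pc_encard, ENNReal.tsum_set_one]
  rw [e, h]
  have := finite_leb (1 : ℝ≥0) (dom_cell z).2
  have := noAtoms_leb hd 1 (cell z)
  have hp := (h5 (Eu d) (leb 1 (cell z))).1
  rw [(h3 (Eu d) (leb 1 (cell z)) (fun _ _ => 1) measurable_const).1]
  simp only [lintegral_const, measure_univ, mul_one]
  rw [one_mul]
  exact measure_lt_top _ _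

theorem badn (h1 : CntEStatement) (h2 : DegStatement) (h6 : BadMStatement) (h7 : PGenStatement)
    (h3 : MeckeStatement) (h4 : MSumStatement) (h5 : ProbStatement) : BadNStatement := by
  intro d Ω _ Pr S hd hS
  obtain ⟨C, hC⟩ := h2 d
  have hgen := h7 d Ω Pr S hd hS
  have hmb := fun (J : ℝ) (z : Fin d → ℤ) => (h6 d Ω Pr S hd hS J (cell z) (measurable_cell z)).1
  have hml := fun (J : ℝ) (z : Fin d → ℤ) => (h6 d Ω Pr S hd hS J (cell z) (measurable_cell z)).2
  have hmn := fun z : Fin d → ℤ => meas_ncount h4 Pr S hS z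
  set b : ℕ → ℝ≥0∞ := fun J => ∫⁻ ω, bcount J (cell 0) (S ω) ∂Pr with hb
  set l : ℕ → ℝ≥0∞ := fun K => ∫⁻ ω, lcount K (cell 0) (S ω) ∂Pr with hl
  set e0 : ℝ≥0∞ := ∫⁻ ω, pc (S ω ∩ cell 0) ∂Pr with he0
  have he0' : e0 < ∞ := int_ncount h3 h4 h5 hd Pr S hS 0
  have sb : ∀ (J : ℕ) (z : Fin d → ℤ), ∫⁻ ω, bcount J (cell z) (S ω) ∂Pr = b J := fun J z =>
    shift_int Pr S hS (fun z S => bcount J (cell z) S) (fun z => hmb J z)
      (fun z S => bcount_shift J z S) z
  have sl : ∀ (K : ℕ) (z : Fin d → ℤ), ∫⁻ ω, lcount K (cell z) (S ω) ∂Pr = l K := fun K z =>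
    shift_int Pr S hS (fun z S => lcount K (cell z) S) (fun z => hml K z)
      (fun z S => lcount_shift K z S) z
  have sn : ∀ z : Fin d → ℤ, ∫⁻ ω, pc (S ω ∩ cell z) ∂Pr = e0 := fun z =>
    shift_int Pr S hS (fun z S => pc (S ∩ cell z)) hmn (fun z S => ncount_shift z S) z
  have hbd : ∀ J, b J ≤ C * e0 := by
    intro J
    rw [hb, he0, ← lintegral_const_mul _ (hmn 0)]
    refine lintegral_mono_ae ?_
    filter_upwards [hgen] with ω hω
    exact bcount_le C _ (fun x => hC _ x hω.2) _ _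
  have hld : ∀ K, l K ≤ C * e0 := by
    intro K
    rw [hl, he0, ← lintegral_const_mul _ (hmn 0)]
    refine lintegral_mono_ae ?_
    filter_upwards [hgen] with ω hω
    exact lcount_le C _ (fun x => hC _ x hω.2) _ _
  have hCe : (C : ℝ≥0∞) * e0 < ∞ := ENNReal.mul_lt_top (ENNReal.natCast_lt_top C) he0'
  -- the main inequality
  have main : ∀ J K N : ℕ, J ≤ K → ((N ^ d : ℕ) : ℝ≥0∞) * b J ≤
      2 * ((((N + 2 * K) ^ d : ℕ) : ℝ≥0∞) * l K +
        (((N + 2 * K) ^ d - N ^ d : ℕ) : ℝ≥0∞) * (C * e0)) := by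
    intro J K N hJK
    have i1 : ∫⁻ ω, ∑ z ∈ IK d K N, bcount J (cell z) (S ω) ∂Pr ≤
        ∫⁻ ω, 2 * (∑ z ∈ IL d K N, lcount K (cell z) (S ω) +
          ∑ z ∈ IL d K N \ IK d K N, C * pc (S ω ∩ cell z)) ∂Pr := by
      refine lintegral_mono_ae ?_
      filter_upwards [hgen] with ω hω
      exact count_ineq h1 C (S ω) (hS.lf ω) hω.1 hω.2 (fun x => hC _ x hω.2) J K N hJK
    rw [lintegral_finsetSum _ fun z _ => hmb J z] at i1
    have m1 : Measurable fun ω => ∑ z ∈ IL d K N, lcount K (cell z) (S ω) :=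
      Finset.measurable_fun_sum _ fun z _ => hml K z
    have m2 : Measurable fun ω => ∑ z ∈ IL d K N \ IK d K N, (C : ℝ≥0∞) * pc (S ω ∩ cell z) :=
      Finset.measurable_fun_sum _ fun z _ => (hmn z).const_mul _
    have m3 : Measurable fun ω => ∑ z ∈ IL d K N, lcount K (cell z) (S ω) +
        ∑ z ∈ IL d K N \ IK d K N, (C : ℝ≥0∞) * pc (S ω ∩ cell z) := m1.add m2
    rw [lintegral_const_mul _ m3, lintegral_add_left m1,
      lintegral_finsetSum _ fun z _ => hml K z,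
      lintegral_finsetSum _ fun z _ => (hmn z).const_mul _] at i1
    have i2 : ∀ z, ∫⁻ ω, (C : ℝ≥0∞) * pc (S ω ∩ cell z) ∂Pr = C * e0 := by
      intro z
      rw [lintegral_const_mul _ (hmn z), sn]
    simp only [sb, sl, i2, Finset.sum_const, nsmul_eq_mul] at i1
    rw [Finset.card_sdiff_of_subset (IK_sub d K N), card_IK, card_IL] at i1
    exact i1
  -- pass to the limit
  have lim : ∀ J K : ℕ, J ≤ K → b J ≤ 2 * l K := by
    intro J K hJK
    have fb : b J ≠ ∞ := ((hbd J).trans_lt hCe).ne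
    have fl : l K ≠ ∞ := ((hld K).trans_lt hCe).ne
    have key : (b J).toReal ≤ 2 * (1 * (l K).toReal + (1 - 1) * ((C : ℝ≥0∞) * e0).toReal) := by
      have ht : Tendsto (fun N : ℕ => (((N : ℝ) + 2 * K) / N) ^ d) atTop (𝓝 1) := by
        have h0 : Tendsto (fun N : ℕ => (1 : ℝ) + 2 * K / (N : ℝ)) atTop (𝓝 (1 + 0)) :=
          tendsto_const_nhds.add (tendsto_const_div_atTop_nhds_zero_nat _)
        rw [add_zero] at h0
        have h1 : Tendsto (fun N : ℕ => ((1 : ℝ) + 2 * K / (N : ℝ)) ^ d) atTop (𝓝 (1 ^ d)) :=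
          h0.pow d
        rw [one_pow] at h1
        refine h1.congr' ?_
        filter_upwards [eventually_ge_atTop 1] with N hN
        have : (N : ℝ) ≠ 0 := by
          have : (1 : ℝ) ≤ N := by exact_mod_cast hN
          linarith
        congr 1
        field_simp
      have ht2 : Tendsto (fun N : ℕ => 2 * ((((N : ℝ) + 2 * K) / N) ^ d * (l K).toReal +
          ((((N : ℝ) + 2 * K) / N) ^ d - 1) * ((C : ℝ≥0∞) * e0).toReal)) atTop
          (𝓝 (2 * (1 * (l K).toReal + (1 - 1) * ((C : ℝ≥0∞) * e0).toReal))) :=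
        (((ht.mul_const _).add ((ht.sub_const 1).mul_const _)).const_mul 2)
      refine ge_of_tendsto ht2 ?_
      filter_upwards [eventually_ge_atTop 1] with N hN
      have hN' : (0 : ℝ) < N := by
        have : (1 : ℝ) ≤ N := by exact_mod_cast hN
        linarith
      have hm := main J K N hJK
      have hle : N ^ d ≤ (N + 2 * K) ^ d := Nat.pow_le_pow_left (by omega) d
      have hfin : 2 * ((((N + 2 * K) ^ d : ℕ) : ℝ≥0∞) * l K +
          (((N + 2 * K) ^ d - N ^ d : ℕ) : ℝ≥0∞) * (C * e0)) ≠ ∞ := by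
        refine ENNReal.mul_ne_top (by norm_num) (ENNReal.add_ne_top.2 ⟨?_, ?_⟩)
        · exact ENNReal.mul_ne_top (ENNReal.natCast_ne_top _) fl
        · exact ENNReal.mul_ne_top (ENNReal.natCast_ne_top _) hCe.ne
      have hr := (ENNReal.toReal_mono hfin hm)
      rw [ENNReal.toReal_mul, ENNReal.toReal_mul, ENNReal.toReal_add
        (ENNReal.mul_ne_top (ENNReal.natCast_ne_top _) fl)
        (ENNReal.mul_ne_top (ENNReal.natCast_ne_top _) hCe.ne), ENNReal.toReal_mul (a := _)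
        (b := l K), ENNReal.toReal_mul (b := (C : ℝ≥0∞) * e0), ENNReal.toReal_natCast,
        ENNReal.toReal_natCast, ENNReal.toReal_natCast, Nat.cast_sub hle] at hr
      push_cast at hr
      have hNd : (0 : ℝ) < (N : ℝ) ^ d := by positivity
      have e1 : (((N : ℝ) + 2 * K) / N) ^ d = ((N : ℝ) + 2 * K) ^ d / (N : ℝ) ^ d := div_pow _ _ _
      rw [e1]
      have e2 : 2 * (((N : ℝ) + 2 * K) ^ d / (N : ℝ) ^ d * (l K).toReal +
          (((N : ℝ) + 2 * K) ^ d / (N : ℝ) ^ d - 1) * ((C : ℝ≥0∞) * e0).toReal) =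
          2 * (((N : ℝ) + 2 * K) ^ d * (l K).toReal +
            (((N : ℝ) + 2 * K) ^ d - (N : ℝ) ^ d) * ((C : ℝ≥0∞) * e0).toReal) / (N : ℝ) ^ d := by
        field_simp
      rw [e2, le_div_iff₀ hNd, mul_comm]
      rw [ENNReal.toReal_ofNat] at hr
      exact hr
    have key2 : (b J).toReal ≤ (2 * l K).toReal := by
      rw [ENNReal.toReal_mul, ENNReal.toReal_ofNat]
      linarith
    exact (ENNReal.toReal_le_toReal fb (ENNReal.mul_ne_top (by norm_num) fl)).1 key2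
  -- long edges disappear
  have hl0 : Tendsto l atTop (𝓝 0) := by
    have h0 : (0 : ℝ≥0∞) = ∫⁻ _ω, (0 : ℝ≥0∞) ∂Pr := by simp
    rw [h0]
    refine tendsto_lintegral_of_dominated_convergence (fun ω => (C : ℝ≥0∞) * pc (S ω ∩ cell 0))
      (fun K => hml K 0) ?_ ?_ ?_
    · intro K
      filter_upwards [hgen] with ω hω
      exact lcount_le C _ (fun x => hC _ x hω.2) _ _
    · rw [lintegral_const_mul _ (hmn 0)]
      exact hCe.ne
    · filter_upwards [hgen] with ω hω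
      exact lcount_tendsto C _ (hS.lf ω) (fun x => hC _ x hω.2) _ (bounded_cell 0)
  have hb0 : ∀ J, b J = 0 := by
    intro J
    have h2l : Tendsto (fun K => 2 * l K) atTop (𝓝 (2 * 0)) :=
      ENNReal.Tendsto.const_mul hl0 (Or.inr (by norm_num))
    rw [mul_zero] at h2l
    have : b J ≤ 0 := by
      refine ge_of_tendsto h2l ?_
      filter_upwards [eventually_ge_atTop J] with K hK
      exact lim J K hK
    exact le_antisymm this zero_le
  have hall : ∀ᵐ ω ∂Pr, ∀ (J : ℕ) (z : Fin d → ℤ), bcount J (cell z) (S ω) = 0 := by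
    rw [ae_all_iff]
    intro J
    rw [ae_all_iff]
    intro z
    have h0 : ∫⁻ ω, bcount J (cell z) (S ω) ∂Pr = 0 := by rw [sb, hb0]
    rw [lintegral_eq_zero_iff (hmb J z)] at h0
    exact h0
  filter_upwards [hall] with ω hω x y hbad
  obtain ⟨J, hJ⟩ := exists_nat_ge (dist x y)
  have h0 := hω J (flo x)
  rw [bcount_eq] at h0
  unfold pc at h0
  rw [ENNReal.tsum_eq_zero] at h0
  have h1 := h0 (x, y)
  rw [ind_of] at h1
  · exact one_ne_zero h1
  · exact ⟨⟨hbad.1.1, rfl⟩, hbad.1.2.1, hbad, hJ⟩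

end Proc

end Pool.Agent.Lib.MP_5349a4_pr.H39
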