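import Pool.Agent.Lib.MP_5349a4_pr.M.Iface4
import Pool.Agent.Lib.MP_5349a4_pr.M.Base

/-!
# BADN, part 1: pair counting, cells, shifts (module of project MSF)
-/

set_option autoImplicit false
open MeasureTheory Set
open scoped ENNReal NNReal

namespace Pool.Agent.Lib.MP_5349a4_pr.H39

/-- number of elements -/
noncomputable def pc {α : Type} (T : Set α) : ℝ≥0∞ := ∑' q : α, ind (q ∈ T)

theorem pc_encard {α : Type} (T : Set α) : pc T = (T.encard : ℝ≥0∞) := by
  rw [← ENNReal.tsum_set_one, tsum_subtype T (fun _ => (1 : ℝ≥0∞))]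
  unfold pc
  refine tsum_congr fun q => ?_
  by_cases h : q ∈ T
  · rw [ind_of h, indicator_of_mem h]
  · rw [ind_not h, indicator_of_notMem h]

theorem pc_mono {α : Type} {T T' : Set α} (h : T ⊆ T') : pc T ≤ pc T' :=
  ENNReal.tsum_le_tsum fun _ => ind_mono fun hq => h hq

variable {d : ℕ}

theorem sum_pairs (S V : Set (Eu d)) (R : Eu d → Eu d → Prop) :
    ∑' x : (S ∩ V : Set (Eu d)), ∑' y : S, ind (R x y) =
      pc {q : Eu d × Eu d | q.1 ∈ S ∩ V ∧ q.2 ∈ S ∧ R q.1 q.2} := by
  unfold pc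
  rw [ENNReal.tsum_prod', tsum_subtype (S ∩ V) (fun x => ∑' y : S, ind (R x y))]
  congr 1
  funext x
  by_cases hx : x ∈ S ∩ V
  · rw [indicator_of_mem hx, tsum_subtype S (fun y => ind (R x y))]
    congr 1
    funext y
    by_cases hy : y ∈ S
    · rw [indicator_of_mem hy]
      exact ind_congr ⟨fun h => ⟨hx, hy, h⟩, fun h => h.2.2⟩
    · rw [indicator_of_notMem hy]
      exact (ind_not fun h => hy h.2.1).symm
  · rw [indicator_of_notMem hx]
    symm
    rw [ENNReal.tsum_eq_zero]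
    intro y
    exact ind_not fun h => hx h.1

theorem bcount_eq (J : ℝ) (V S : Set (Eu d)) : bcount J V S =
    pc {q : Eu d × Eu d | q.1 ∈ S ∩ V ∧ q.2 ∈ S ∧ (bad S q.1 q.2 ∧ dist q.1 q.2 ≤ J)} :=
  sum_pairs S V fun x y => bad S x y ∧ dist x y ≤ J

theorem lcount_eq (J : ℝ) (V S : Set (Eu d)) : lcount J V S =
    pc {q : Eu d × Eu d | q.1 ∈ S ∩ V ∧ q.2 ∈ S ∧ (edge S q.1 q.2 ∧ J < dist q.1 q.2)} :=
  sum_pairs S V fun x y => edge S x y ∧ J < dist x y

/-- integer part of a vector -/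
noncomputable def flo (x : Eu d) : Fin d → ℤ := fun i => ⌊x i⌋

/-- unit cell -/
def cell (z : Fin d → ℤ) : Set (Eu d) := {x | flo x = z}

theorem sum_cells (I : Finset (Fin d → ℤ)) (T : (Fin d → ℤ) → Set (Eu d × Eu d))
    (T' : Set (Eu d × Eu d)) (h : ∀ z ∈ I, T z ⊆ T') (hc : ∀ z, ∀ q ∈ T z, q.1 ∈ cell z) :
    ∑ z ∈ I, pc (T z) ≤ pc T' := by
  classical
  unfold pc
  rw [← Summable.tsum_finsetSum (fun _ _ => ENNReal.summable)]
  refine ENNReal.tsum_le_tsum fun q => ?_
  calc ∑ z ∈ I, ind (q ∈ T z) ≤ ∑ z ∈ I, (if flo q.1 = z then ind (q ∈ T') else 0) := by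
        refine Finset.sum_le_sum fun z hz => ?_
        by_cases hq : q ∈ T z
        · have : flo q.1 = z := hc z q hq
          rw [if_pos this]
          exact ind_mono fun _ => h z hz hq
        · rw [ind_not hq]
          exact zero_le
    _ ≤ ind (q ∈ T') := by
        rw [Finset.sum_ite_eq]
        split_ifs
        · exact le_rfl
        · exact zero_le

theorem cover_cells (I I' : Finset (Fin d → ℤ)) (T1 T2 : (Fin d → ℤ) → Set (Eu d × Eu d))
    (T : Set (Eu d × Eu d))
    (h : ∀ q ∈ T, (∃ z ∈ I, q ∈ T1 z) ∨ (∃ z ∈ I', q ∈ T2 z)) :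
    pc T ≤ ∑ z ∈ I, pc (T1 z) + ∑ z ∈ I', pc (T2 z) := by
  unfold pc
  rw [← Summable.tsum_finsetSum (fun _ _ => ENNReal.summable),
    ← Summable.tsum_finsetSum (fun _ _ => ENNReal.summable), ← ENNReal.tsum_add]
  refine ENNReal.tsum_le_tsum fun q => ?_
  by_cases hq : q ∈ T
  · rcases h q hq with ⟨z, hz, h1⟩ | ⟨z, hz, h1⟩
    · calc ind (q ∈ T) ≤ ind (q ∈ T1 z) := ind_mono fun _ => h1
        _ ≤ ∑ z ∈ I, ind (q ∈ T1 z) :=
            Finset.single_le_sum (f := fun z => ind (q ∈ T1 z)) (fun _ _ => zero_le) hz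
        _ ≤ _ := le_self_add
    · calc ind (q ∈ T) ≤ ind (q ∈ T2 z) := ind_mono fun _ => h1
        _ ≤ ∑ z ∈ I', ind (q ∈ T2 z) :=
            Finset.single_le_sum (f := fun z => ind (q ∈ T2 z)) (fun _ _ => zero_le) hz
        _ ≤ _ := le_add_self
  · rw [ind_not hq]
    exact zero_le

/-- pairs with bounded degree -/
theorem deg_bound (C : ℕ) (S V : Set (Eu d)) (hC : ∀ x, {y | edge S x y}.encard ≤ C)
    (T : Set (Eu d × Eu d)) (hT : ∀ q ∈ T, q.1 ∈ S ∩ V ∧ edge S q.1 q.2) :
    pc T ≤ C * pc (S ∩ V) := by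
  unfold pc
  rw [ENNReal.tsum_prod', ← ENNReal.tsum_mul_left]
  refine ENNReal.tsum_le_tsum fun x => ?_
  by_cases hx : x ∈ S ∩ V
  · rw [ind_of hx, mul_one]
    have h1 : ∑' y, ind ((x, y) ∈ T) ≤ pc {y | edge S x y} :=
      ENNReal.tsum_le_tsum fun y => ind_mono fun h => (hT _ h).2
    refine h1.trans ?_
    rw [pc_encard]
    have := hC x
    exact_mod_cast ENat.toENNReal_mono this
  · have : ∀ y, ind ((x, y) ∈ T) = 0 := fun y => ind_not fun h => hx (hT _ h).1
    simp [this]

/-! ### Shifts -/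

theorem och_shift1 (S : Set (Eu d)) (v : Eu d) (r : ℝ) (x p : Eu d) (h : p ∈ och S r x) :
    p + v ∈ och ((fun u => u + v) '' S) r (x + v) := by
  have h' : Relation.ReflTransGen (fun a b => dist a b < r ∧ b ∈ S) x p := h
  exact Relation.ReflTransGen.lift
    (p := fun a b => dist a b < r ∧ b ∈ (fun u => u + v) '' S) (fun u => u + v)
    (fun a b hab => ⟨by simpa using hab.1, ⟨b, hab.2, rfl⟩⟩) _ _ h'

theorem image_back (S : Set (Eu d)) (v : Eu d) :
    (fun u => u + -v) '' ((fun u => u + v) '' S) = S := by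
  rw [image_image]
  simp

theorem och_shift (S : Set (Eu d)) (v : Eu d) (r : ℝ) (x p : Eu d) :
    p + v ∈ och ((fun u => u + v) '' S) r (x + v) ↔ p ∈ och S r x := by
  refine ⟨fun h => ?_, och_shift1 S v r x p⟩
  have := och_shift1 _ (-v) r _ _ h
  rw [image_back] at this
  simpa using this

theorem och_image (S : Set (Eu d)) (v : Eu d) (r : ℝ) (x : Eu d) :
    och ((fun u => u + v) '' S) r (x + v) = (fun u => u + v) '' och S r x := by
  ext p
  constructor
  · intro h
    refine ⟨p - v, ?_, by simp⟩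
    rw [← och_shift S v r x (p - v)]
    simpa using h
  · rintro ⟨u, hu, rfl⟩
    exact (och_shift S v r x u).2 hu

theorem inj_add (v : Eu d) : Function.Injective (fun u : Eu d => u + v) :=
  fun a b h => by simpa using h

theorem mem_shift (S : Set (Eu d)) (v x : Eu d) : x + v ∈ (fun u => u + v) '' S ↔ x ∈ S :=
  (inj_add v).mem_set_image

theorem edge_shift (S : Set (Eu d)) (v x y : Eu d) :
    edge ((fun u => u + v) '' S) (x + v) (y + v) ↔ edge S x y := by
  unfold edge
  rw [mem_shift, mem_shift, dist_add_right, och_shift]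
  simp

theorem bad_shift (S : Set (Eu d)) (v x y : Eu d) :
    bad ((fun u => u + v) '' S) (x + v) (y + v) ↔ bad S x y := by
  unfold bad
  rw [edge_shift, dist_add_right, och_image, och_image,
    infinite_image_iff (inj_add v).injOn, infinite_image_iff (inj_add v).injOn]

theorem cell_shift (z : Fin d → ℤ) (x : Eu d) : x + ivec z ∈ cell z ↔ x ∈ cell 0 := by
  unfold cell flo ivec
  simp only [mem_ofPred_eq]
  constructor
  · intro h
    funext i
    have := congrFun h i
    simpa using this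
  · intro h
    funext i
    have := congrFun h i
    simpa using this

theorem pc_equiv {α β : Type} (e : α ≃ β) (T : Set β) : pc {a | e a ∈ T} = pc T := by
  unfold pc
  exact Equiv.tsum_eq e (fun b => ind (b ∈ T))

theorem bcount_shift (J : ℝ) (z : Fin d → ℤ) (S : Set (Eu d)) :
    bcount J (cell z) ((fun u => u + ivec z) '' S) = bcount J (cell 0) S := by
  rw [bcount_eq, bcount_eq, ← pc_equiv ((Equiv.addRight (ivec z)).prodCongr
    (Equiv.addRight (ivec z)))]
  congr 1
  ext ⟨x, y⟩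
  simp only [mem_ofPred_eq, Equiv.prodCongr_apply, Prod.map_apply, Equiv.coe_addRight, mem_inter_iff,
    mem_shift, cell_shift, bad_shift, dist_add_right]

theorem lcount_shift (J : ℝ) (z : Fin d → ℤ) (S : Set (Eu d)) :
    lcount J (cell z) ((fun u => u + ivec z) '' S) = lcount J (cell 0) S := by
  rw [lcount_eq, lcount_eq, ← pc_equiv ((Equiv.addRight (ivec z)).prodCongr
    (Equiv.addRight (ivec z)))]
  congr 1
  ext ⟨x, y⟩
  simp only [mem_ofPred_eq, Equiv.prodCongr_apply, Prod.map_apply, Equiv.coe_addRight, mem_inter_iff,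
    mem_shift, cell_shift, edge_shift, dist_add_right]

theorem ncount_shift (z : Fin d → ℤ) (S : Set (Eu d)) :
    pc (((fun u => u + ivec z) '' S) ∩ cell z) = pc (S ∩ cell 0) := by
  rw [← pc_equiv (Equiv.addRight (ivec z))]
  congr 1
  ext x
  simp only [mem_ofPred_eq, Equiv.coe_addRight, mem_inter_iff, mem_shift, cell_shift]

/-! ### Geometry of the cells -/

theorem measurable_cell (z : Fin d → ℤ) : MeasurableSet (cell z : Set (Eu d)) := by
  have : (cell z : Set (Eu d)) = ⋂ i, {x : Eu d | ⌊x i⌋ = z i} := by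
    ext x
    simp [cell, flo, funext_iff]
  rw [this]
  refine MeasurableSet.iInter fun i => ?_
  have hm : Measurable fun x : Eu d => ⌊x i⌋ := by
    have h1 : Measurable fun x : Eu d => x i := by fun_prop
    exact Int.measurable_floor.comp h1
  exact hm (measurableSet_singleton (z i))

/-- a union of cells over a bounded index set is bounded -/
theorem bounded_box (a b : ℤ) :
    Bornology.IsBounded {x : Eu d | ∀ i, a ≤ ⌊x i⌋ ∧ ⌊x i⌋ < b} := by
  have h1 : Bornology.IsBounded (Set.pi univ fun _ : Fin d => Set.Icc (a : ℝ) (b : ℝ)) :=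
    (isCompact_univ_pi fun _ => isCompact_Icc).isBounded
  have h2 : Bornology.IsBounded ((WithLp.toLp 2 : (Fin d → ℝ) → Eu d) ''
      (Set.pi univ fun _ : Fin d => Set.Icc (a : ℝ) (b : ℝ))) := by
    have hc : IsCompact (Set.pi univ fun _ : Fin d => Set.Icc (a : ℝ) (b : ℝ)) :=
      isCompact_univ_pi fun _ => isCompact_Icc
    exact (hc.image (PiLp.continuous_toLp 2 _)).isBounded
  refine h2.subset fun x hx => ?_
  refine ⟨fun i => x i, ?_, rfl⟩
  intro i _
  obtain ⟨h3, h4⟩ := hx i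
  constructor
  · exact Int.le_floor.1 h3
  · have h5 : x i < (⌊x i⌋ : ℝ) + 1 := Int.lt_floor_add_one _
    have h6 : (⌊x i⌋ : ℝ) + 1 ≤ b := by exact_mod_cast h4
    linarith

end Pool.Agent.Lib.MP_5349a4_pr.H39
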